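import Pool.Agent.Run7.h134.MainB

set_option autoImplicit false

namespace Pool.Agent.Results.MP_fbbc72_al.OreExtension

/-- A finitely generated division algebra `D` over a finite field with `Tdeg D < 3` which is
generated by a division subring `E` and an element `x` with `x E ⊆ E x + E`, the powers of `x`
being left independent over `E`, is finite-dimensional over its centre. -/
theorem result :
    ∀ (k : Type) [Field k] [Finite k] (D : Type) [DivisionRing D] [Algebra k D],
      (∃ s : Finset D, ∀ S : Subring D, (∀ x ∈ S, x⁻¹ ∈ S) → (s : Set D) ⊆ (S : Set D) →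
          Set.range (algebraMap k D) ⊆ (S : Set D) → S = ⊤) →
      (⨆ (V : Submodule k D) (_ : FiniteDimensional k ↥V) (_ : (1 : D) ∈ V),
        ⨅ (b : D) (_ : b ≠ 0),
          ⨆ (W : Submodule k D) (_ : FiniteDimensional k ↥W) (_ : (1 : D) ∈ W)
            (_ : W ≤ Subalgebra.toSubmodule
                (Algebra.adjoin k (Set.image (fun v : D => b * v) (V : Set D)))),
            Filter.limsup
              (fun n : ℕ =>
                (((Real.log (Module.finrank k ↥((W ^ n : Submodule k D)) : ℝ))
                    / Real.log (n : ℝ) : ℝ) : EReal))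
              Filter.atTop : EReal) < (3 : EReal) →
      ∀ (E : Subring D) (x : D), (∀ e ∈ E, e⁻¹ ∈ E) →
        Set.range (algebraMap k D) ⊆ (E : Set D) →
        (∀ e ∈ E, ∃ a ∈ E, ∃ c ∈ E, x * e = a * x + c) →
        (∀ (n : ℕ) (c : ℕ → D), (∀ i, c i ∈ E) → ∑ i ∈ Finset.range n, c i * x ^ i = 0 →
          ∀ i < n, c i = 0) →
        (∀ S : Subring D, (∀ y ∈ S, y⁻¹ ∈ S) → E ≤ S → x ∈ S → S = ⊤) →
      ∃ t : Finset D, ∀ y : D, ∃ c : D → D,
        (∀ d : D, ∀ z : D, c d * z = z * c d) ∧ y = ∑ d ∈ t, c d * d := by
  intro k _ _ D _ _ hfg hT E x hinv hkE hx hind hgen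
  let E' : Subfield D := { E with inv_mem' := hinv }
  let G : Run7.h134.OreD k D :=
    { E := E'
      kE := fun c => hkE ⟨c, rfl⟩
      x := x
      hx := hx
      indep := hind
      gen := by
        intro S hES hxS
        have h := hgen S.toSubring (fun y hy => S.inv_mem hy) (fun e he => hES he) hxS
        rw [eq_top_iff]
        intro y _
        have : y ∈ S.toSubring := by rw [h]; trivial
        exact this }
  exact Run7.h134.frozen_form (G.mainB hT hfg)

end Pool.Agent.Results.MP_fbbc72_al.OreExtension
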